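import Mathlib

/-!
TB/COMB (project TB of helper198): a sum of products of factorials.
-/

set_option autoImplicit false
set_option linter.unusedSectionVars false

namespace Pool.Agent.N441.TB

open Finset

variable {ι : Type} [DecidableEq ι]

lemma comb_rec (t : ℕ) (j : ℕ) :
    ∑ i ∈ range (j + 1 + 1), (j + 1).choose i * (i.factorial * (t + (j + 1 - i) - 1).factorial) =
      (t + (j + 1) - 1).factorial +
        (j + 1) * ∑ i ∈ range (j + 1), j.choose i * (i.factorial * (t + (j - i) - 1).factorial) := by
  rw [Finset.sum_range_succ', Finset.mul_sum]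
  rw [add_comm]
  congr 1
  · simp
  · apply Finset.sum_congr rfl
    intro i _
    have h1 : (j + 1).choose (i + 1) * (i + 1).factorial = (j + 1) * (j.choose i * i.factorial) := by
      have h2 := Nat.add_one_mul_choose_eq j i
      rw [Nat.factorial_succ]
      calc (j + 1).choose (i + 1) * ((i + 1) * i.factorial)
          = ((j + 1).choose (i + 1) * (i + 1)) * i.factorial := by ring
        _ = ((j + 1) * j.choose i) * i.factorial := by rw [h2]
        _ = _ := by ring
    have h3 : j + 1 - (i + 1) = j - i := by omega
    rw [h3, ← mul_assoc, h1]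
    ring

lemma comb_num (t : ℕ) (ht : 1 ≤ t) (j : ℕ) :
    t * ∑ i ∈ range (j + 1), j.choose i * (i.factorial * (t + (j - i) - 1).factorial) =
      (t + j).factorial := by
  induction j with
  | zero =>
    obtain ⟨s, rfl⟩ : ∃ s, t = s + 1 := ⟨t - 1, by omega⟩
    simp [Nat.factorial_succ]
  | succ j ih =>
    rw [comb_rec, mul_add]
    have h1 : t * ((j + 1) * ∑ i ∈ range (j + 1),
        j.choose i * (i.factorial * (t + (j - i) - 1).factorial)) = (j + 1) * (t + j).factorial := by
      rw [← ih]
      ring
    have h2 : t + (j + 1) - 1 = t + j := by omega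
    rw [h1, h2, ← add_mul, ← add_assoc, Nat.factorial_succ]

/-- TB/COMB -/
theorem comb (J : Finset ι) (t : ℕ) (ht : 1 ≤ t) :
    t * ∑ J' ∈ J.powerset, (J'.card).factorial * (t + (J \ J').card - 1).factorial =
      (t + J.card).factorial := by
  rw [← comb_num t ht J.card]
  congr 1
  have h1 : ∑ J' ∈ J.powerset, (J'.card).factorial * (t + (J \ J').card - 1).factorial =
      ∑ J' ∈ J.powerset, (fun m => m.factorial * (t + (J.card - m) - 1).factorial) J'.card := by
    apply Finset.sum_congr rfl
    intro J' hJ'
    rw [Finset.card_sdiff_of_subset (Finset.mem_powerset.1 hJ')]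
  rw [h1, Finset.sum_powerset_apply_card (fun m => m.factorial * (t + (J.card - m) - 1).factorial)]
  simp only [smul_eq_mul]

end Pool.Agent.N441.TB
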